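import Pool.Agent.Q141.CP.Stm

set_option autoImplicit false

/-!
# Project CP (helper141), job LOW (helper123)
-/

namespace Pool.Agent.Q123.CP

open Finset Filter Topology
open Pool.Agent.Q141.CP

/-- the local times add up to the number of the steps -/
theorem sum_loc {D n : ℕ} (s : Fin n → Dir D) : ∑ x ∈ vis s, loc s x = n := by
  classical
  unfold vis loc
  have h := Finset.card_eq_sum_card_image (pos s) (Finset.Icc 1 n)
  rw [Nat.card_Icc, Nat.add_sub_cancel] at h
  exact h.symm

theorem loc_pos {D n : ℕ} (s : Fin n → Dir D) {x : Vtx D} (hx : x ∈ vis s) : 1 ≤ loc s x := by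
  classical
  unfold vis at hx
  obtain ⟨i, hi, rfl⟩ := mem_image.1 hx
  unfold loc
  exact Finset.card_pos.2 ⟨i, mem_filter.2 ⟨hi, rfl⟩⟩

theorem mem_vis {D n : ℕ} (s : Fin n → Dir D) {x : Vtx D} (hx : loc s x ≠ 0) : x ∈ vis s := by
  classical
  unfold loc at hx
  obtain ⟨i, hi⟩ := Finset.card_pos.1 (Nat.pos_of_ne_zero hx)
  unfold vis
  exact mem_image.2 ⟨i, (mem_filter.1 hi).1, (mem_filter.1 hi).2⟩

/-- the points of the line -/
def li (i : ℕ) : Vtx 1 := fun _ => (i : ℤ)

theorem li_injective : Function.Injective li := by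
  intro i j h
  have := congrFun h 0
  unfold li at this
  exact_mod_cast this

/-- the product for the walks of `S_D1` -/
theorem prod_eq {k : ℕ} (s : Fin (25 * (k + 1)) → Dir 1) (h0 : loc s (fun _ => 0) = 12)
    (h1 : ∀ i : ℕ, 1 ≤ i → i ≤ k → loc s (fun _ => (i : ℤ)) = 25)
    (h2 : loc s (fun _ => (k : ℤ) + 1) = 13) (g : ℕ → ℝ) :
    ∏ x ∈ vis s, g (loc s x) = g 12 * g 25 ^ k * g 13 := by
  classical
  have e0 : loc s (li 0) = 12 := h0
  have e1 : ∀ i ∈ range k, loc s (li (i + 1)) = 25 := by
    intro i hi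
    have := h1 (i + 1) (by omega) (by have := mem_range.1 hi; omega)
    exact this
  have e2 : loc s (li (k + 1)) = 13 := by
    have h3 : li (k + 1) = fun _ => (k : ℤ) + 1 := by
      funext j
      unfold li
      push_cast
      rfl
    rw [h3]
    exact h2
  -- the set of the points
  set T : Finset (Vtx 1) := (range (k + 2)).image li with hT
  have hsum : ∀ f : Vtx 1 → ℕ, ∑ x ∈ T, f x = f (li 0) + ∑ i ∈ range k, f (li (i + 1)) +
      f (li (k + 1)) := by
    intro f
    rw [hT, sum_image (fun a _ b _ h => li_injective h), sum_range_succ, sum_range_succ']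
    ring
  have hprod : ∀ f : Vtx 1 → ℝ, ∏ x ∈ T, f x = f (li 0) * (∏ i ∈ range k, f (li (i + 1))) *
      f (li (k + 1)) := by
    intro f
    rw [hT, prod_image (fun a _ b _ h => li_injective h), prod_range_succ, prod_range_succ']
    ring
  have hloc : ∀ x ∈ T, loc s x ≠ 0 := by
    intro x hx
    obtain ⟨i, hi, rfl⟩ := mem_image.1 hx
    rw [mem_range] at hi
    rcases Nat.eq_zero_or_pos i with h | h
    · subst h
      rw [e0]
      norm_num
    · by_cases h3 : i ≤ k
      · obtain ⟨j, rfl⟩ : ∃ j, i = j + 1 := ⟨i - 1, by omega⟩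
        rw [e1 j (mem_range.2 (by omega))]
        norm_num
      · have : i = k + 1 := by omega
        rw [this, e2]
        norm_num
  have hsub : T ⊆ vis s := fun x hx => mem_vis s (hloc x hx)
  have hTs : ∑ x ∈ T, loc s x = 25 * (k + 1) := by
    rw [hsum, e0, e2, sum_congr rfl e1, sum_const, card_range, smul_eq_mul]
    ring
  have hvis : vis s = T := by
    refine (Subset.antisymm hsub ?_).symm
    by_contra hcon
    obtain ⟨x, hx, hxT⟩ := not_subset.1 hcon
    have h3 := sum_sdiff (f := loc s) hsub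
    have h4 : loc s x ≤ ∑ y ∈ vis s \ T, loc s y :=
      single_le_sum (f := loc s) (fun _ _ => Nat.zero_le _) (mem_sdiff.2 ⟨hx, hxT⟩)
    have h5 := loc_pos s hx
    have h6 := sum_loc s
    omega
  rw [hvis, hprod, e0, e2]
  congr 2
  rw [prod_congr rfl (fun i hi => by rw [e1 i hi]), prod_const, card_range]

theorem t_LOW : S_LOW := by
  intro hD1 g hg
  set C : ℝ := (Nat.choose 24 12 : ℝ) with hC
  have hC0 : 0 < C := by
    rw [hC]
    exact_mod_cast Nat.choose_pos (by norm_num)
  -- the lower bound for `Z`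
  have hZ : ∀ k : ℕ, C ^ k * (g 12 * g 25 ^ k * g 13) / 2 ^ (25 * (k + 1)) ≤
      Z 1 g (25 * (k + 1)) := by
    intro k
    obtain ⟨P, hP, hs⟩ := hD1 k
    unfold Z
    have e1 : (2 * ((1 : ℕ) : ℝ)) ^ (25 * (k + 1)) = 2 ^ (25 * (k + 1)) := by norm_num
    rw [e1]
    refine div_le_div_of_nonneg_right ?_ (by positivity)
    have h1 : ∑ s ∈ P, ∏ x ∈ vis s, g (loc s x) ≤
        ∑ s : Fin (25 * (k + 1)) → Dir 1, ∏ x ∈ vis s, g (loc s x) :=
      sum_le_sum_of_subset_of_nonneg (subset_univ _) fun s _ _ =>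
        prod_nonneg fun x _ => (hg _).le
    refine le_trans ?_ h1
    rw [sum_congr rfl (fun s hs' => prod_eq s (hs s hs').1 (hs s hs').2.1 (hs s hs').2.2 g),
      sum_const, nsmul_eq_mul]
    have h12 := hg 12
    have h13 := hg 13
    have h25 := hg 25
    refine mul_le_mul_of_nonneg_right ?_ (by positivity)
    rw [hC]
    exact_mod_cast hP
  -- the sequence of the lower bounds
  set a : ℕ → ℝ := fun k => ((Real.log (g 25) + Real.log C) * k + (Real.log (g 12) +
    Real.log (g 13))) / (25 * (k + 1)) - Real.log 2 with ha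
  have hlog : ∀ k : ℕ, a k ≤ Real.log (Z 1 g (25 * (k + 1))) / ((25 * (k + 1) : ℕ) : ℝ) := by
    intro k
    have h12 := hg 12
    have h13 := hg 13
    have h25 := hg 25
    have h1 := Real.log_le_log (by positivity) (hZ k)
    rw [Real.log_div (by positivity) (by positivity), Real.log_mul (by positivity) (by positivity),
      Real.log_mul (by positivity) (by positivity), Real.log_mul (by positivity) (by positivity),
      Real.log_pow, Real.log_pow, Real.log_pow] at h1
    have hn : (0 : ℝ) < ((25 * (k + 1) : ℕ) : ℝ) := by positivity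
    rw [le_div_iff₀ hn, ha]
    refine le_trans (le_of_eq ?_) h1
    push_cast
    have : (k : ℝ) + 1 ≠ 0 := by positivity
    field_simp
    ring
  have hlim : Tendsto a atTop (𝓝 ((Real.log (g 25) + Real.log C) / 25 - Real.log 2)) := by
    refine Tendsto.sub_const ?_ _
    have h1 : ∀ k : ℕ, ((Real.log (g 25) + Real.log C) * k + (Real.log (g 12) +
        Real.log (g 13))) / (25 * (k + 1)) = (Real.log (g 25) + Real.log C) / 25 +
        ((Real.log (g 12) + Real.log (g 13)) - (Real.log (g 25) + Real.log C)) / 25 *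
          (1 / ((k : ℝ) + 1)) := by
      intro k
      have : (k : ℝ) + 1 ≠ 0 := by positivity
      field_simp
      ring
    simp only [h1]
    have h2 := (tendsto_one_div_add_atTop_nhds_zero_nat (𝕜 := ℝ)).const_mul
      (((Real.log (g 12) + Real.log (g 13)) - (Real.log (g 25) + Real.log C)) / 25)
    have h3 := h2.const_add ((Real.log (g 25) + Real.log C) / 25)
    rwa [mul_zero, add_zero] at h3
  have hlimE : Tendsto (fun k => ((a k : ℝ) : EReal)) atTop
      (𝓝 (((Real.log (g 25) + Real.log C) / 25 - Real.log 2 : ℝ) : EReal)) :=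
    (continuous_coe_real_ereal.tendsto _).comp hlim
  rw [← hlimE.limsup_eq]
  have hφ : Tendsto (fun k : ℕ => 25 * (k + 1)) atTop atTop := by
    refine tendsto_atTop_mono (fun k => ?_) tendsto_id
    show k ≤ 25 * (k + 1)
    omega
  calc limsup (fun k => ((a k : ℝ) : EReal)) atTop
      ≤ limsup ((fun n : ℕ => ((Real.log (Z 1 g n) / n : ℝ) : EReal)) ∘
          fun k : ℕ => 25 * (k + 1)) atTop :=
        limsup_le_limsup (Eventually.of_forall fun k => EReal.coe_le_coe_iff.2 (hlog k))
    _ = limsup (fun n : ℕ => ((Real.log (Z 1 g n) / n : ℝ) : EReal))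
          (map (fun k : ℕ => 25 * (k + 1)) atTop) := by
        rw [limsup, limsup, Filter.map_map]
    _ ≤ limsup (fun n : ℕ => ((Real.log (Z 1 g n) / n : ℝ) : EReal)) atTop :=
        limsup_le_limsup_of_le hφ

end Pool.Agent.Q123.CP
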