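import Pool.Agent.Q141.CP.Stm

set_option autoImplicit false

/-!
# Project CP (helper141), job SUM (helper123)
-/

namespace Pool.Agent.Q123.CP

open Finset Filter Topology
open Pool.Agent.Q141.CP
open Pool.Agent.Q285.LogFact (G)

section walk

variable {D n : ℕ} (s : Fin n → Dir D)

theorem pos_zero : pos s 0 = 0 := by
  unfold pos
  simp

theorem pos_succ {i : ℕ} (hi : i < n) : pos s (i + 1) = pos s i + stepv (s ⟨i, hi⟩) := by
  unfold pos
  have h : ∀ j : Fin n, (if (j : ℕ) < i + 1 then stepv (s j) else 0) =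
      (if (j : ℕ) < i then stepv (s j) else 0) + (if j = ⟨i, hi⟩ then stepv (s j) else 0) := by
    intro j
    by_cases h1 : (j : ℕ) < i
    · have h2 : j ≠ ⟨i, hi⟩ := by
        rintro rfl
        simp at h1
      rw [if_pos h1, if_pos (by omega), if_neg h2, add_zero]
    · by_cases h2 : j = ⟨i, hi⟩
      · subst h2
        simp
      · have h3 : ¬ (j : ℕ) < i + 1 := by
          intro h3
          apply h2
          ext
          show (j : ℕ) = i
          omega
        rw [if_neg h1, if_neg h2, if_neg h3, add_zero]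
  rw [sum_congr rfl (fun j _ => h j), sum_add_distrib, sum_ite_eq' univ (⟨i, hi⟩ : Fin n)]
  simp

theorem mem_tr {i : ℕ} (hi : i ≤ n) : pos s i ∈ tr s :=
  mem_image_of_mem _ (mem_range.2 (by omega))

theorem zero_mem_tr : (0 : Vtx D) ∈ tr s := by
  have := mem_tr s (Nat.zero_le n)
  rwa [pos_zero] at this

theorem card_tr_le : (tr s).card ≤ n + 1 := by
  unfold tr
  refine card_image_le.trans ?_
  rw [card_range]

theorem stepv_neg (a : Dir D) : stepv (a.1, !a.2) = -stepv a := by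
  unfold stepv
  obtain ⟨i, b⟩ := a
  cases b <;> simp [Pi.single_neg]

theorem conn_tr : ConnZ (tr s) := by
  -- forward
  have h1 : ∀ i j : ℕ, i ≤ j → j ≤ n → Relation.ReflTransGen
      (fun a b => a ∈ tr s ∧ b ∈ tr s ∧ ∃ d, b = a + stepv d) (pos s i) (pos s j) := by
    intro i j hij hj
    induction j, hij using Nat.le_induction with
    | base => exact Relation.ReflTransGen.refl
    | succ j hij ih =>
      refine (ih (by omega)).tail ⟨mem_tr s (by omega), mem_tr s hj, s ⟨j, by omega⟩, ?_⟩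
      exact pos_succ s (by omega)
  -- symmetry
  have h2 : ∀ a b : Vtx D, Relation.ReflTransGen
      (fun a b => a ∈ tr s ∧ b ∈ tr s ∧ ∃ d, b = a + stepv d) a b →
      Relation.ReflTransGen (fun a b => a ∈ tr s ∧ b ∈ tr s ∧ ∃ d, b = a + stepv d) b a := by
    intro a b h
    induction h with
    | refl => exact Relation.ReflTransGen.refl
    | tail _ hbc ih =>
      obtain ⟨ha, hb, d, hd⟩ := hbc
      refine Relation.ReflTransGen.head ⟨hb, ha, (d.1, !d.2), ?_⟩ ih
      rw [stepv_neg, hd]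
      abel
  intro x hx y hy
  unfold tr at hx hy
  obtain ⟨i, hi, rfl⟩ := mem_image.1 hx
  obtain ⟨j, hj, rfl⟩ := mem_image.1 hy
  rw [mem_range] at hi hj
  rcases le_total i j with h | h
  · exact h1 i j h (by omega)
  · exact h2 _ _ (h1 j i h (by omega))

theorem ext_zero {x : Vtx D} (hx : x ∉ tr s) : ext s x = 0 := by
  unfold Pool.Agent.Q141.CP.ext
  rw [card_eq_zero, filter_eq_empty_iff]
  intro i hi h
  rw [mem_range] at hi
  exact hx (h ▸ mem_tr s hi.le)

theorem ext_le (x : Vtx D) : ext s x ≤ n := by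
  unfold Pool.Agent.Q141.CP.ext
  refine (card_filter_le _ _).trans ?_
  rw [card_range]

theorem ext_pos {x : Vtx D} (hx : x ∈ tr s) (hne : x ≠ pos s n) : 1 ≤ ext s x := by
  unfold tr at hx
  obtain ⟨i, hi, rfl⟩ := mem_image.1 hx
  rw [mem_range] at hi
  have h1 : i ≠ n := by
    rintro rfl
    exact hne rfl
  unfold Pool.Agent.Q141.CP.ext
  exact card_pos.2 ⟨i, mem_filter.2 ⟨mem_range.2 (by omega), rfl⟩⟩

theorem sum_ext : ∑ x ∈ tr s, ext s x = n := by
  unfold Pool.Agent.Q141.CP.ext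
  have h := card_eq_sum_card_fiberwise (f := pos s) (s := range n) (t := tr s)
    (fun i hi => mem_tr s (mem_range.1 hi).le)
  rw [card_range] at h
  exact h.symm

end walk

/-- the geometric sums -/
theorem geom {q : ℝ} (hq0 : 0 ≤ q) (hq : q ≤ 1 / 2) (n : ℕ) :
    ∑ j ∈ range n, q ^ (j + 1) ≤ 2 * q := by
  have h1 : ∑ j ∈ range n, q ^ j ≤ 2 := by
    have h2 : ∀ j ∈ range n, q ^ j ≤ (1 / 2 : ℝ) ^ j := fun j _ => pow_le_pow_left₀ hq0 hq j
    refine (sum_le_sum h2).trans ?_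
    have h3 := Summable.sum_le_tsum (range n) (fun l _ => by positivity) summable_geometric_two
    rwa [tsum_geometric_two] at h3
  calc ∑ j ∈ range n, q ^ (j + 1) = (∑ j ∈ range n, q ^ j) * q := by
        rw [sum_mul]
        exact sum_congr rfl fun j _ => pow_succ q j
    _ ≤ 2 * q := mul_le_mul_of_nonneg_right h1 hq0

/-- the sum over one exit number -/
theorem one_sum {q a : ℝ} (hq0 : 0 ≤ q) (hq : q ≤ 1 / 2) (ha : 0 ≤ a) (n : ℕ) (P : Prop)
    [Decidable P] :
    ∑ j ∈ range (n + 1), (if P ∨ 1 ≤ j then (if j = 25 then a else q ^ j) else 0) ≤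
      if P then a + 2 else a + 2 * q := by
  have h1 : ∀ j ∈ range (n + 1), (if P ∨ 1 ≤ j then (if j = 25 then a else q ^ j) else 0) ≤
      (if j = 25 then a else 0) + (if P ∨ 1 ≤ j then q ^ j else 0) := by
    intro j _
    by_cases h : P ∨ 1 ≤ j
    · rw [if_pos h, if_pos h]
      by_cases h2 : j = 25
      · rw [if_pos h2, if_pos h2]
        have : 0 ≤ q ^ j := pow_nonneg hq0 _
        linarith
      · rw [if_neg h2, if_neg h2, zero_add]
    · rw [if_neg h, if_neg h, add_zero]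
      split_ifs
      · exact ha
      · exact le_rfl
  refine (sum_le_sum h1).trans ?_
  rw [sum_add_distrib]
  have h2 : ∑ j ∈ range (n + 1), (if j = 25 then a else 0) ≤ a := by
    rw [sum_ite_eq']
    split_ifs
    · exact le_rfl
    · exact ha
  have h3 := geom hq0 hq n
  rw [sum_range_succ' (fun j => if P ∨ 1 ≤ j then q ^ j else 0)]
  have h4 : ∑ j ∈ range n, (if P ∨ 1 ≤ j + 1 then q ^ (j + 1) else 0) =
      ∑ j ∈ range n, q ^ (j + 1) := sum_congr rfl fun j _ => if_pos (Or.inr (by omega))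
  rw [h4]
  by_cases hP : P
  · rw [if_pos (Or.inl hP), if_pos hP, pow_zero]
    linarith
  · rw [if_neg (by simp [hP]), if_neg hP]
    linarith

section main

variable {D : ℕ} {Λ q b ε : ℝ}

open Classical in
/-- the factor of the point `x` -/
noncomputable def fac (Λ q : ℝ) (V : Finset (Vtx D)) (y x : Vtx D) (j : ℕ) : ℝ :=
  if x = y ∨ 1 ≤ j then (if j = 25 then A (nb V x) / Λ else q ^ j) else 0

theorem A_pos (j : ℕ) : 0 < A j := by
  unfold A
  positivity

theorem fac_nonneg (hΛ : 0 < Λ) (hq : 0 ≤ q) (V : Finset (Vtx D)) (y x : Vtx D) (j : ℕ) :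
    0 ≤ fac Λ q V y x j := by
  unfold fac
  split_ifs
  · exact (div_pos (A_pos _) hΛ).le
  · exact pow_nonneg hq _
  · exact le_rfl

/-- the sum over all exit numbers for given `V`, `y` -/
theorem sum_pi (hΛ : 0 < Λ) (hq0 : 0 ≤ q) (hq : q ≤ 1 / 2) (hb : 0 < b)
    (hε : 0 < ε) (hqε : 2 * q ≤ ε * b) (hA : ∀ j, b ≤ A j / Λ) (n : ℕ) (V : Finset (Vtx D))
    (y : Vtx D) (hy : y ∈ V) :
    ∑ e ∈ V.pi (fun _ => range (n + 1)), ∏ x ∈ V.attach, fac Λ q V y x (e x x.2) ≤
      (1 + 2 / b) * (1 + ε) ^ V.card * ∏ x ∈ V, (A (nb V x) / Λ) := by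
  classical
  rw [← prod_sum]
  have h1 : ∀ x ∈ V, ∑ j ∈ range (n + 1), fac Λ q V y x j ≤
      (if x = y then 1 + 2 / b else 1) * ((1 + ε) * (A (nb V x) / Λ)) := by
    intro x _
    have h2 := one_sum (n := n) hq0 hq (div_pos (A_pos (nb V x)) hΛ).le (x = y)
    have h3 := hA (nb V x)
    unfold fac
    refine le_trans (le_of_eq ?_) (h2.trans ?_)
    · refine sum_congr rfl fun j _ => ?_
      congr
    · have ha : 0 < A (nb V x) / Λ := div_pos (A_pos _) hΛ
      by_cases hxy : x = y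
      · rw [if_pos hxy, if_pos hxy]
        have h4 : 2 ≤ 2 / b * (A (nb V x) / Λ) := by
          rw [div_mul_eq_mul_div, le_div_iff₀ hb]
          linarith
        have h5 : 0 ≤ ε * ((1 + 2 / b) * (A (nb V x) / Λ)) := by positivity
        calc A (nb V x) / Λ + 2 ≤ (1 + 2 / b) * (A (nb V x) / Λ) := by linarith
          _ ≤ (1 + 2 / b) * ((1 + ε) * (A (nb V x) / Λ)) := by linarith
      · rw [if_neg hxy, if_neg hxy, one_mul]
        have h4 : ε * b ≤ ε * (A (nb V x) / Λ) := mul_le_mul_of_nonneg_left h3 hε.le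
        linarith
  have h2 : ∏ x ∈ V, ∑ j ∈ range (n + 1), fac Λ q V y x j ≤
      ∏ x ∈ V, ((if x = y then 1 + 2 / b else 1) * ((1 + ε) * (A (nb V x) / Λ))) :=
    prod_le_prod (fun x _ => sum_nonneg fun j _ => fac_nonneg hΛ hq0 V y x j) h1
  refine h2.trans (le_of_eq ?_)
  rw [prod_mul_distrib, prod_mul_distrib, prod_const, prod_ite_eq' V y, if_pos hy]
  ring

/-- the sum over one class -/
theorem class_le {C₁ C₂ η : ℝ} {w : ℕ → ℝ} (hΛ : 1 ≤ Λ) (hq0 : 0 ≤ C₁ * η)
    (hC₂ : 0 < C₂)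
    (h : ∀ (n : ℕ) (V : Finset (Vtx D)) (y : Vtx D) (e : Vtx D → ℕ)
      (S : Finset (Fin n → Dir D)), (∀ s ∈ S, s ∈ cls n V y e) →
      ∑ s ∈ S, ∏ x ∈ vis s, w (loc s x) ≤
        C₂ * ∏ x ∈ V, (if e x = 25 then A (nb V x) else (C₁ * η) ^ e x))
    (n : ℕ) (V : Finset (Vtx D)) (y : Vtx D) (e : ∀ x ∈ V, ℕ) (S : Finset (Fin n → Dir D))
    (hS : ∀ s ∈ S, tr s = V ∧ pos s n = y ∧ ∀ x (hx : x ∈ V), ext s x = e x hx) :
    ∑ s ∈ S, ∏ x ∈ vis s, w (loc s x) ≤
      C₂ * Λ ^ ((n : ℝ) / 25) * ∏ x ∈ V.attach, fac Λ (C₁ * η) V y x (e x x.2) := by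
  classical
  have hΛ0 : 0 < Λ := by linarith
  have hfac : 0 ≤ ∏ x ∈ V.attach, fac Λ (C₁ * η) V y x (e x x.2) :=
    prod_nonneg fun x _ => fac_nonneg hΛ0 hq0 V y x _
  rcases S.eq_empty_or_nonempty with rfl | ⟨s0, hs0⟩
  · rw [sum_empty]
    positivity
  obtain ⟨hV, hy, he⟩ := hS s0 hs0
  -- the extension by zero
  set e' : Vtx D → ℕ := fun x => if hx : x ∈ V then e x hx else 0 with he'
  have he1 : ∀ x (hx : x ∈ V), e' x = e x hx := fun x hx => dif_pos hx
  have hext : e' = ext s0 := by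
    funext x
    by_cases hx : x ∈ V
    · rw [he1 x hx, he x hx]
    · rw [he', ext_zero s0 (by rw [hV]; exact hx)]
      simp [hx]
  have h1 := h n V y e' S (fun s hs => by
    obtain ⟨a1, a2, a3⟩ := hS s hs
    refine ⟨a1, a2, fun x => ?_⟩
    by_cases hx : x ∈ V
    · rw [a3 x hx, he1 x hx]
    · rw [ext_zero s (by rw [a1]; exact hx), he']
      simp [hx])
  refine h1.trans ?_
  rw [mul_assoc]
  refine mul_le_mul_of_nonneg_left ?_ hC₂.le
  have h2 : ∏ x ∈ V.attach, fac Λ (C₁ * η) V y x (e x x.2) =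
      ∏ x ∈ V, (if e' x = 25 then A (nb V x) / Λ else (C₁ * η) ^ e' x) := by
    rw [← prod_attach V (fun x => if e' x = 25 then A (nb V x) / Λ else (C₁ * η) ^ e' x)]
    refine prod_congr rfl fun x _ => ?_
    rw [he1 x x.2]
    unfold fac
    rw [if_pos]
    by_cases hxy : (x : Vtx D) = y
    · exact Or.inl hxy
    · refine Or.inr ?_
      rw [← he x x.2]
      refine ext_pos s0 (by rw [hV]; exact x.2) ?_
      rw [hy]
      exact hxy
  rw [h2]
  -- the powers of `Λ`
  have h3 : ∏ x ∈ V, (if e' x = 25 then A (nb V x) else (C₁ * η) ^ e' x) =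
      (∏ x ∈ V, (if e' x = 25 then Λ else 1)) *
        ∏ x ∈ V, (if e' x = 25 then A (nb V x) / Λ else (C₁ * η) ^ e' x) := by
    rw [← prod_mul_distrib]
    refine prod_congr rfl fun x _ => ?_
    split_ifs
    · field_simp
    · rw [one_mul]
  have hprod : 0 ≤ ∏ x ∈ V, (if e' x = 25 then A (nb V x) / Λ else (C₁ * η) ^ e' x) := by
    refine prod_nonneg fun x _ => ?_
    split_ifs
    · exact (div_pos (A_pos _) hΛ0).le
    · exact pow_nonneg hq0 _
  rw [h3]
  refine mul_le_mul_of_nonneg_right ?_ hprod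
  rw [← prod_filter, prod_const]
  have h4 : 25 * (V.filter fun x => e' x = 25).card ≤ n := by
    calc 25 * (V.filter fun x => e' x = 25).card = ∑ x ∈ V.filter (fun x => e' x = 25), e' x := by
          rw [sum_congr rfl (fun x hx => (mem_filter.1 hx).2), sum_const, smul_eq_mul, mul_comm]
      _ ≤ ∑ x ∈ V, e' x := sum_le_sum_of_subset (filter_subset _ _)
      _ = n := by rw [hext, ← hV, sum_ext]
  have h5 : ((V.filter fun x => e' x = 25).card : ℝ) ≤ (n : ℝ) / 25 := by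
    rw [le_div_iff₀ (by norm_num)]
    have : ((25 * (V.filter fun x => e' x = 25).card : ℕ) : ℝ) ≤ n := by exact_mod_cast h4
    push_cast at this
    linarith
  calc Λ ^ (V.filter fun x => e' x = 25).card =
        Λ ^ ((V.filter fun x => e' x = 25).card : ℝ) := (Real.rpow_natCast _ _).symm
    _ ≤ Λ ^ ((n : ℝ) / 25) := Real.rpow_le_rpow_of_exponent_le hΛ h5

/-- the classification of the walks -/
theorem classify (n : ℕ) (f : (Fin n → Dir D) → ℝ) (W : Finset (Vtx D) → ℝ) (K : ℝ)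
    (hW : ∀ s : Fin n → Dir D, 0 ≤ W (tr s))
    (h : ∀ (V : Finset (Vtx D)), (∃ s : Fin n → Dir D, tr s = V) → ∀ y ∈ V,
      ∑ e ∈ V.pi (fun _ => range (n + 1)), ∑ s ∈ (univ : Finset (Fin n → Dir D)).filter
        (fun s => tr s = V ∧ pos s n = y ∧ ∀ x (hx : x ∈ V), ext s x = e x hx), f s ≤
      K * W V) (hK : 0 ≤ K) :
    ∑ s : Fin n → Dir D, f s ≤
      (n + 1) * K * ∑ V ∈ (univ : Finset (Fin n → Dir D)).image tr, W V := by
  classical
  rw [← sum_fiberwise_of_maps_to (s := univ) (t := (univ : Finset (Fin n → Dir D)).image tr)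
    (g := tr) (fun s _ => mem_image_of_mem _ (mem_univ s)), mul_sum]
  refine sum_le_sum fun V hV => ?_
  obtain ⟨s0, -, hs0⟩ := mem_image.1 hV
  rw [← sum_fiberwise_of_maps_to (s := univ.filter fun s => tr s = V) (t := V)
    (g := fun s : Fin n → Dir D => pos s n) (fun s hs => by
      rw [← (mem_filter.1 hs).2]
      exact mem_tr s le_rfl)]
  have h1 : ∀ y ∈ V, ∑ s ∈ (univ.filter fun s => tr s = V) with pos s n = y, f s ≤ K * W V := by
    intro y hy
    refine le_trans (le_of_eq ?_) (h V ⟨s0, hs0⟩ y hy)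
    rw [← sum_fiberwise_of_maps_to
      (s := (univ.filter fun s : Fin n → Dir D => tr s = V).filter fun s => pos s n = y)
      (t := V.pi (fun _ => range (n + 1))) (g := fun s => fun x _ => ext s x) (fun s _ => by
        rw [Finset.mem_pi]
        exact fun x _ => mem_range.2 (Nat.lt_succ_of_le (ext_le s x)))]
    refine sum_congr rfl fun e _ => ?_
    refine sum_congr ?_ fun _ _ => rfl
    ext s
    simp only [mem_filter, mem_univ, true_and]
    constructor
    · rintro ⟨⟨a1, a2⟩, a3⟩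
      exact ⟨a1, a2, fun x hx => congrFun (congrFun a3 x) hx⟩
    · rintro ⟨a1, a2, a3⟩
      exact ⟨⟨a1, a2⟩, funext fun x => funext fun hx => a3 x hx⟩
  refine (sum_le_sum h1).trans ?_
  rw [sum_const, nsmul_eq_mul]
  have h2 : (V.card : ℝ) ≤ n + 1 := by
    have := card_tr_le s0
    rw [hs0] at this
    exact_mod_cast this
  have h3 : 0 ≤ K * W V := mul_nonneg hK (hs0 ▸ hW s0)
  calc (V.card : ℝ) * (K * W V) ≤ (n + 1) * (K * W V) := mul_le_mul_of_nonneg_right h2 h3
    _ = (n + 1) * K * W V := by ring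

/-- the sum over the sets -/
theorem sum_sets (hΛ : 0 < Λ) (hKB : KB D Λ) (hε : 0 < ε) (n : ℕ) :
    ∑ V ∈ (univ : Finset (Fin n → Dir D)).image tr,
      ((1 + ε) ^ V.card * ∏ x ∈ V, (A (nb V x) / Λ)) ≤ (n + 2) * (1 + ε) ^ (n + 1) := by
  classical
  have hmaps : ∀ V ∈ (univ : Finset (Fin n → Dir D)).image tr, V.card ∈ range (n + 2) := by
    intro V hV
    obtain ⟨s, -, rfl⟩ := mem_image.1 hV
    have := card_tr_le s
    exact mem_range.2 (by omega)
  rw [← sum_fiberwise_of_maps_to hmaps]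
  have h1 : ∀ k ∈ range (n + 2), ∑ V ∈ (univ : Finset (Fin n → Dir D)).image tr with V.card = k,
      ((1 + ε) ^ V.card * ∏ x ∈ V, (A (nb V x) / Λ)) ≤ (1 + ε) ^ (n + 1) := by
    intro k hk
    have h2 := hKB k (((univ : Finset (Fin n → Dir D)).image tr).filter fun V => V.card = k)
      (fun V hV => by
        obtain ⟨h3, h4⟩ := mem_filter.1 hV
        obtain ⟨s, -, rfl⟩ := mem_image.1 h3
        exact ⟨zero_mem_tr s, h4, conn_tr s⟩)
    calc ∑ V ∈ (univ : Finset (Fin n → Dir D)).image tr with V.card = k,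
          ((1 + ε) ^ V.card * ∏ x ∈ V, (A (nb V x) / Λ))
        ≤ ∑ V ∈ (univ : Finset (Fin n → Dir D)).image tr with V.card = k,
          ((1 + ε) ^ (n + 1) * ∏ x ∈ V, (A (nb V x) / Λ)) := by
          refine sum_le_sum fun V hV => ?_
          refine mul_le_mul_of_nonneg_right ?_ (prod_nonneg fun x _ => (div_pos (A_pos _) hΛ).le)
          refine pow_le_pow_right₀ (by linarith) ?_
          rw [(mem_filter.1 hV).2]
          have := mem_range.1 hk
          omega
      _ = (1 + ε) ^ (n + 1) * ∑ V ∈ (univ : Finset (Fin n → Dir D)).image tr with V.card = k,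
            ∏ x ∈ V, (A (nb V x) / Λ) := by rw [mul_sum]
      _ ≤ (1 + ε) ^ (n + 1) * 1 := mul_le_mul_of_nonneg_left h2 (by positivity)
      _ = (1 + ε) ^ (n + 1) := mul_one _
  refine (sum_le_sum h1).trans ?_
  rw [sum_const, card_range, nsmul_eq_mul]
  push_cast
  exact le_rfl

end main

theorem t_SUM : S_SUM := by
  classical
  intro prf inj an3 D Λ hD hΛ hKB ε hε
  have hΛ0 : 0 < Λ := by linarith
  obtain ⟨C₁, hC₁, hprf⟩ := prf inj an3 D hD
  have hG : ∀ d, 0 ≤ G d := an3.2.1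
  set b : ℝ := 1 / (((25).factorial : ℝ) * Λ) with hb
  have hb0 : 0 < b := by positivity
  have hA : ∀ j, b ≤ A j / Λ := by
    intro j
    rw [hb]
    unfold A
    rw [div_div]
    refine div_le_div_of_nonneg_right ?_ (by positivity)
    exact Real.one_le_exp (mul_nonneg (by norm_num) (hG _))
  -- the choice of `η`
  set η : ℝ := min 1 (min (1 / (2 * C₁)) (ε * b / (2 * C₁))) with hη
  have hη0 : 0 < η := by
    rw [hη]
    exact lt_min one_pos (lt_min (by positivity) (by positivity))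
  have hη1 : η ≤ 1 := min_le_left _ _
  have hη2 : C₁ * η ≤ 1 / 2 := by
    have h1 : η ≤ 1 / (2 * C₁) := (min_le_right _ _).trans (min_le_left _ _)
    calc C₁ * η ≤ C₁ * (1 / (2 * C₁)) := mul_le_mul_of_nonneg_left h1 hC₁.le
      _ = 1 / 2 := by field_simp
  have hη3 : 2 * (C₁ * η) ≤ ε * b := by
    have h1 : η ≤ ε * b / (2 * C₁) := (min_le_right _ _).trans (min_le_right _ _)
    calc 2 * (C₁ * η) ≤ 2 * (C₁ * (ε * b / (2 * C₁))) := by gcongr
      _ = ε * b := by field_simp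
  have hq0 : 0 ≤ C₁ * η := by positivity
  obtain ⟨C₂, hC₂, hcls⟩ := hprf η hη0 hη1
  refine ⟨η, hη0, hη1, fun w hw => ⟨C₂ * (1 + 2 / b) * (2 * (1 + ε)), by positivity, fun n => ?_⟩⟩
  have hn : (0 : ℝ) ≤ n := Nat.cast_nonneg n
  have hΛn : 0 < Λ ^ ((n : ℝ) / 25) := Real.rpow_pos_of_pos hΛ0 _
  have h1 := classify (D := D) n (fun s => ∏ x ∈ vis s, w (loc s x))
    (fun V => (1 + ε) ^ V.card * ∏ x ∈ V, (A (nb V x) / Λ))
    (C₂ * Λ ^ ((n : ℝ) / 25) * (1 + 2 / b))
    (fun s => mul_nonneg (by positivity) (prod_nonneg fun x _ => (div_pos (A_pos _) hΛ0).le))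
    (fun V _ y hy => by
      have h2 : ∀ e ∈ V.pi (fun _ => range (n + 1)), ∑ s ∈ (univ : Finset (Fin n → Dir D)).filter
          (fun s => tr s = V ∧ pos s n = y ∧ ∀ x (hx : x ∈ V), ext s x = e x hx),
            ∏ x ∈ vis s, w (loc s x) ≤
          C₂ * Λ ^ ((n : ℝ) / 25) * ∏ x ∈ V.attach, fac Λ (C₁ * η) V y x (e x x.2) := by
        intro e _
        exact class_le hΛ hq0 hC₂ (hcls w hw) n V y e _ fun s hs => (mem_filter.1 hs).2
      refine (sum_le_sum h2).trans ?_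
      rw [← mul_sum]
      have h3 := sum_pi hΛ0 hq0 hη2 hb0 hε hη3 hA n V y hy
      refine (mul_le_mul_of_nonneg_left h3 (by positivity)).trans (le_of_eq ?_)
      ring) (by positivity)
  refine h1.trans ?_
  have h2 := sum_sets (D := D) hΛ0 hKB hε n
  calc ((n : ℝ) + 1) * (C₂ * Λ ^ ((n : ℝ) / 25) * (1 + 2 / b)) *
        ∑ V ∈ (univ : Finset (Fin n → Dir D)).image tr,
          ((1 + ε) ^ V.card * ∏ x ∈ V, (A (nb V x) / Λ))
      ≤ ((n : ℝ) + 1) * (C₂ * Λ ^ ((n : ℝ) / 25) * (1 + 2 / b)) *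
          ((n + 2) * (1 + ε) ^ (n + 1)) := mul_le_mul_of_nonneg_left h2 (by positivity)
    _ = (C₂ * (1 + 2 / b) * (1 + ε) * Λ ^ ((n : ℝ) / 25) * (1 + ε) ^ n) *
          (((n : ℝ) + 1) * (n + 2)) := by
        rw [pow_succ]
        ring
    _ ≤ (C₂ * (1 + 2 / b) * (1 + ε) * Λ ^ ((n : ℝ) / 25) * (1 + ε) ^ n) *
          (2 * ((n : ℝ) + 1) ^ 3) := by
        refine mul_le_mul_of_nonneg_left ?_ (by positivity)
        nlinarith [mul_nonneg hn hn, mul_nonneg (mul_nonneg hn hn) hn]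
    _ = C₂ * (1 + 2 / b) * (2 * (1 + ε)) * (n + 1) ^ 3 * Λ ^ ((n : ℝ) / 25) * (1 + ε) ^ n := by
        ring

end Pool.Agent.Q123.CP
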